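import Pool.Agent.H767R3.DS.All3

set_option autoImplicit false

namespace Pool.Agent.Results.MP_a717c1_al.DirectSquare

open Pool.Agent.H741.QS

/-- The direct (tensor) product of two graphs. -/
def directProduct {V W : Type} (X : SimpleGraph V) (Y : SimpleGraph W) : SimpleGraph (V × W) where
  Adj a b := X.Adj a.1 b.1 ∧ Y.Adj a.2 b.2
  symm := ⟨fun _ _ h => ⟨h.1.symm, h.2.symm⟩⟩
  loopless := ⟨fun a h => X.loopless.irrefl a.1 h.1⟩

/-- The characterising condition: `X` has just one vertex, or `X` is connected and not bipartite,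
distinct vertices of `X` have distinct neighbourhoods, and `X` has no quantum symmetry. -/
def Cond {V : Type} [Fintype V] (X : SimpleGraph V) : Prop :=
  Fintype.card V = 1 ∨
    (X.Connected ∧ ¬ X.Colorable 2 ∧ (∀ x y, (∀ z, X.Adj x z ↔ X.Adj y z) → x = y) ∧
      NoQuantumSymmetry X)

open Classical in
/-- The matrix `A ^ (2 * m)` of the graph, scaled to have diagonal entries one. -/
noncomputable def kernel {V : Type} [Fintype V] (X : SimpleGraph V) (m : ℕ) (a b : V) : ℝ :=
  (X.adjMatrix ℝ ^ (2 * m)) a b /
    Real.sqrt ((X.adjMatrix ℝ ^ (2 * m)) a a * (X.adjMatrix ℝ ^ (2 * m)) b b)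

/-- The `m`-skeleton of `X`: distinct vertices `a`, `b` are adjacent if
`kernel a c * kernel c b < kernel a b` for every vertex `c` other than `a` and `b` (the kernel is
symmetric; both orders are listed only to make the relation visibly symmetric). -/
noncomputable def skeleton {V : Type} [Fintype V] (X : SimpleGraph V) (m : ℕ) : SimpleGraph V where
  Adj a b := a ≠ b ∧ (∀ c, c ≠ a → c ≠ b → kernel X m a c * kernel X m c b < kernel X m a b) ∧
    (∀ c, c ≠ a → c ≠ b → kernel X m b c * kernel X m c a < kernel X m b a)
  symm := ⟨fun _ _ h => ⟨h.1.symm, fun c h1 h2 => h.2.2 c h2 h1, fun c h1 h2 => h.2.1 c h2 h1⟩⟩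
  loopless := ⟨fun a h => h.1 rfl⟩

open Classical in
/-- `X` has an odd number of vertices, or for some `m` such that all entries of `A ^ m` are positive
the complete graph on two vertices is not a Cartesian factor of the `m`-skeleton of `X`. -/
def Admissible {V : Type} [Fintype V] (X : SimpleGraph V) : Prop :=
  Odd (Fintype.card V) ∨
    ∃ m : ℕ, (∀ a b, 0 < (X.adjMatrix ℝ ^ m) a b) ∧
      ∀ (W : Type) [Fintype W] (Y : SimpleGraph W),
        IsEmpty (skeleton X m ≃g ((⊤ : SimpleGraph Bool) □ Y))

/-- For every finite nonempty graph `X`: if the direct square of `X` has no quantum symmetry, then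
`X` satisfies `Cond`; and the converse holds if `X` is admissible, in particular if the number of
vertices of `X` is odd. -/
theorem result (V : Type) [Fintype V] [Nonempty V] (X : SimpleGraph V) :
    (NoQuantumSymmetry (directProduct X X) → Cond X) ∧
      (Admissible X → (NoQuantumSymmetry (directProduct X X) ↔ Cond X)) :=
  ⟨Pool.Agent.H767R3.DS.necAll V X, fun hV =>
    ⟨Pool.Agent.H767R3.DS.necAll V X, Pool.Agent.H767R3.DS.suffAll V X hV⟩⟩

end Pool.Agent.Results.MP_a717c1_al.DirectSquare
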